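import Mathlib
import Pool.Agent.Y949.MP.Mult
import Pool.Agent.V11326.WW
import Pool.Agent.H326R2.Pi.Top

set_option autoImplicit false

/-!
# Words in the expansions of almost all the multiples of `π`

Let `b ≥ 2`, `k ≥ 1` and `0 < ε < 1`.  There are `0 < c ≤ 1 / 2` and `C > 0` such that

(1) for all real `y`, all `M ≥ 2` and all `n`, for all but at most `C M ^ (1 - c)` of the `m < M`,
every word of `k` digits stands at least
`(1 - ε) (log M / (b ^ k log b)) (log (n / (C log M)) / log 6.05)` times at the first `n` places of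
the base-`b` expansion of `y + m π`;

(2) for every sequence `v ≥ 1` with exponent of convergence at most `τ`, all `θ < 1` and all real
`y_0, y_1, …` there is a set `E` of Hausdorff dimension at most `(1 - c + τ) / (1 - θ)` such that for
all `α > 0` outside `E`, every `i`, all large `n` and ALL integers `m` with `|m - α v_n| ≤ v_n ^ θ`:
every word of `k` digits stands infinitely often in `y_i + m π`, and for infinitely many `N` at least
`(1 - ε) (log m / (b ^ k log b)) (log (N / (C log m)) / log 6.05)` times at the first `N` places.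

More generally this holds for every irrational `x` with `|q x - p| ≥ c₀ q ^ (-κ)`, `κ ≥ 1`, with
`1 + κ` in place of `6.05`.
-/

namespace Pool.Agent.Results.MP_57632f_nt.AlmostAllMultiples

open Finset Filter

/-- the `j`-th digit of `y` in base `b` (`j ≥ 1`) -/
noncomputable def digit (b : ℕ) (y : ℝ) (j : ℕ) : ℤ := ⌊y * (b : ℝ) ^ j⌋ % (b : ℤ)

/-- the word `w` of `k` digits stands in the expansion of `y` right after the `i`-th digit -/
def Stands (b k : ℕ) (w : Fin k → Fin b) (y : ℝ) (i : ℕ) : Prop :=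
  ∀ s : Fin k, digit b y (i + s + 1) = ((w s : ℕ) : ℤ)

/-- the number of the places `i < n` at which the word `w` stands -/
noncomputable def count (b k : ℕ) (w : Fin k → Fin b) (y : ℝ) (n : ℕ) : ℕ :=
  {i : ℕ | i < n ∧ Stands b k w y i}.ncard

/-- Every word of `k` digits stands at least
`(1 - ε) (log M / (b ^ k log b)) (log (n / (C log M)) / log (1 + κ))` times at the first `n` places
of `y`. -/
def Many (b k : ℕ) (ε κ C y : ℝ) (M n : ℕ) : Prop :=
  ∀ w : Fin k → Fin b, (1 - ε) * (Real.log M / ((b : ℝ) ^ k * Real.log b)) *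
    (Real.log (n / (C * Real.log M)) / Real.log (1 + κ)) ≤ (count b k w y n : ℝ)

/-- Every word of `k` digits stands infinitely often in `y`, and `Many` holds for infinitely many
`n`. -/
def Good (b k : ℕ) (ε κ C y : ℝ) (m : ℕ) : Prop :=
  (∀ w : Fin k → Fin b, {i : ℕ | Stands b k w y i}.Infinite) ∧
    ∃ᶠ n : ℕ in atTop, Many b k ε κ C y m n

/-- the exponent of convergence of the sequence `v` is at most `τ` -/
def ExpLe (v : ℕ → ℝ) (τ : ℝ) : Prop := ∀ t : ℝ, τ < t → Summable (fun n : ℕ => (v n) ^ (-t))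

/-- The statements (1) and (2) for the multiples of `x`. -/
def MultiplesGood (x κ : ℝ) : Prop :=
  ∀ b k : ℕ, 2 ≤ b → 1 ≤ k → ∀ ε : ℝ, 0 < ε → ε < 1 → ∃ c C : ℝ, 0 < c ∧ c ≤ 1 / 2 ∧ 0 < C ∧
    (∀ (y : ℝ) (M n : ℕ), 2 ≤ M →
      ({m : ℕ | m < M ∧ ¬ Many b k ε κ C (y + m * x) M n}.ncard : ℝ) ≤ C * (M : ℝ) ^ (1 - c)) ∧
    (∀ (v : ℕ → ℝ) (τ θ : ℝ), (∀ n, 1 ≤ v n) → 0 ≤ τ → ExpLe v τ → θ < 1 → ∀ y : ℕ → ℝ,
      ∃ E : Set ℝ, dimH E ≤ ENNReal.ofReal ((1 - c + τ) / (1 - θ)) ∧ ∀ α : ℝ, 0 < α → α ∉ E →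
        ∀ i : ℕ, ∃ n₀ : ℕ, ∀ n : ℕ, n₀ ≤ n → ∀ m : ℕ, |(m : ℝ) - α * v n| ≤ (v n) ^ θ →
          Good b k ε κ C (y i + m * x) m)

lemma count_eq (b k : ℕ) (w : Fin k → Fin b) (y : ℝ) (n : ℕ) :
    count b k w y n = Pool.Agent.W226.MP.occ b k w y 0 n := by
  classical
  unfold count Stands digit Pool.Agent.W226.MP.occ Pool.Agent.W226.MP.OccursAt
    Pool.Agent.W226.MP.digit
  rw [← Set.ncard_coe_finset]
  congr 1
  ext i
  simp only [Set.mem_ofPred_eq, Finset.coe_filter, Finset.mem_range, zero_add]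

lemma count_le (b k : ℕ) (w : Fin k → Fin b) (y : ℝ) (h : {i : ℕ | Stands b k w y i}.Finite)
    (n : ℕ) : count b k w y n ≤ {i : ℕ | Stands b k w y i}.ncard :=
  Set.ncard_le_ncard (fun _ hi => hi.2) h

theorem multiples {x κ c₀ : ℝ} (hx : Irrational x) (hκ : 1 ≤ κ) (hc₀ : 0 < c₀)
    (hbad : ∀ q : ℕ, 1 ≤ q → ∀ p : ℤ, c₀ ≤ (q : ℝ) ^ κ * |q * x - p|) : MultiplesGood x κ := by
  classical
  intro b k hb hk ε hε hε1
  obtain ⟨c1, C, hc1, hC, h0⟩ := Pool.Agent.Y949.MP.mult x κ c₀ hx hκ hc₀ hbad b k hb hk ε hε hε1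
  have hbR : (2 : ℝ) ≤ b := by exact_mod_cast hb
  have hlb : 0 < Real.log b := Real.log_pos (by linarith)
  have hlκ : 0 < Real.log (1 + κ) := Real.log_pos (by linarith)
  obtain ⟨c, hc⟩ : ∃ c, c = min c1 (1 / 2) := ⟨_, rfl⟩
  have hc0 : 0 < c := by rw [hc]; exact lt_min hc1 (by norm_num)
  have hc2 : c ≤ 1 / 2 := by rw [hc]; exact min_le_right _ _
  have hc3 : c ≤ c1 := by rw [hc]; exact min_le_left _ _
  -- the first part
  have key : ∀ (y : ℝ) (M n : ℕ), 2 ≤ M →
      ({m : ℕ | m < M ∧ ¬ Many b k ε κ C (y + m * x) M n}.ncard : ℝ) ≤ C * (M : ℝ) ^ (1 - c) := by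
    intro y M n hM
    have hMR : (2 : ℝ) ≤ M := by exact_mod_cast hM
    have h1 : ({m : ℕ | m < M ∧ ¬ Many b k ε κ C (y + m * x) M n}.ncard : ℝ) ≤
        C * (M : ℝ) ^ (1 - c1) := by
      refine le_trans (Nat.cast_le.2 ?_) (h0 y M n hM)
      rw [← Set.ncard_coe_finset]
      refine Set.ncard_le_ncard ?_ (Finset.finite_toSet _)
      rintro m ⟨hm, h2⟩
      unfold Many at h2
      push Not at h2
      obtain ⟨w, hw⟩ := h2
      rw [count_eq] at hw
      rw [Finset.mem_coe, Finset.mem_filter, Finset.mem_range]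
      exact ⟨hm, w, hw⟩
    refine h1.trans (mul_le_mul_of_nonneg_left ?_ hC.le)
    exact Real.rpow_le_rpow_of_exponent_le (by linarith) (by linarith)
  -- all `n`
  have h : ∀ (y : ℝ) (M : ℕ), 2 ≤ M →
      ({m : ℕ | m < M ∧ ¬ Good b k ε κ C (y + m * x) M}.ncard : ℝ) ≤ C * (M : ℝ) ^ (1 - c) := by
    intro y M hM
    have hMR : (2 : ℝ) ≤ M := by exact_mod_cast hM
    have hlM : 0 < Real.log M := Real.log_pos (by linarith)
    have hfin : ∀ P : ℕ → Prop, {m : ℕ | m < M ∧ P m}.Finite := fun P =>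
      (Set.finite_lt_nat M).subset (fun _ hm => hm.1)
    have hlim : Tendsto (fun n : ℕ => (1 - ε) * (Real.log M / ((b : ℝ) ^ k * Real.log b)) *
        (Real.log (n / (C * Real.log M)) / Real.log (1 + κ))) atTop atTop := by
      apply Tendsto.const_mul_atTop
      · have : 0 < 1 - ε := by linarith
        positivity
      apply Tendsto.atTop_div_const hlκ
      apply Real.tendsto_log_atTop.comp
      exact tendsto_natCast_atTop_atTop.atTop_div_const (by positivity)
    have hev : ∀ m ∈ Finset.range M, ∀ᶠ n : ℕ in atTop,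
        (¬ Good b k ε κ C (y + m * x) M) → ¬ Many b k ε κ C (y + m * x) M n := by
      intro m _
      by_cases hfr : ∃ᶠ n : ℕ in atTop, Many b k ε κ C (y + m * x) M n
      · by_cases hw : ∀ w : Fin k → Fin b, {i : ℕ | Stands b k w (y + m * x) i}.Infinite
        · exact Eventually.of_forall (fun n hn => absurd ⟨hw, hfr⟩ hn)
        · push Not at hw
          obtain ⟨w, hw⟩ := hw
          filter_upwards [hlim.eventually_gt_atTop
            (({i : ℕ | Stands b k w (y + m * x) i}.ncard : ℕ) : ℝ)] with n hn _ hall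
          have h1 := hall w
          have h2 : (count b k w (y + m * x) n : ℝ) ≤
              (({i : ℕ | Stands b k w (y + m * x) i}.ncard : ℕ) : ℝ) := by
            exact_mod_cast count_le b k w _ hw n
          linarith
      · rw [not_frequently] at hfr
        filter_upwards [hfr] with n hn _
        exact hn
    obtain ⟨n, hn⟩ := ((Filter.eventually_all_finset (Finset.range M)).2 hev).exists
    refine le_trans (Nat.cast_le.2 (Set.ncard_le_ncard ?_ (hfin _))) (key y M n hM)
    rintro m ⟨hm, h1⟩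
    exact ⟨hm, hn m (Finset.mem_range.2 hm) h1⟩
  refine ⟨c, 3 * C, hc0, hc2, by linarith, ?_, ?_⟩
  · intro y M n hM
    have hMR : (2 : ℝ) ≤ M := by exact_mod_cast hM
    have hlM : 0 < Real.log M := Real.log_pos (by linarith)
    have h1 : ({m : ℕ | m < M ∧ ¬ Many b k ε κ (3 * C) (y + m * x) M n}.ncard : ℝ) ≤
        ({m : ℕ | m < M ∧ ¬ Many b k ε κ C (y + m * x) M n}.ncard : ℝ) := by
      refine Nat.cast_le.2 (Set.ncard_le_ncard ?_
        ((Set.finite_lt_nat M).subset (fun _ hm => hm.1)))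
      rintro m ⟨hm, h2⟩
      refine ⟨hm, fun h3 => h2 fun w => le_trans ?_ (h3 w)⟩
      rcases Nat.eq_zero_or_pos n with h4 | h4
      · rw [h4]
        simp
      have hn0 : (0 : ℝ) < n := by exact_mod_cast h4
      apply mul_le_mul_of_nonneg_left _ (mul_nonneg (by linarith) (by positivity))
      apply div_le_div_of_nonneg_right _ hlκ.le
      apply Real.log_le_log (by positivity)
      apply div_le_div_of_nonneg_left hn0.le (by positivity)
      nlinarith
    refine h1.trans ((key y M n hM).trans ?_)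
    have h5 : 0 ≤ C * (M : ℝ) ^ (1 - c) := by positivity
    linarith
  · intro v τ θ hv hτ hE hθ1 y
    obtain ⟨E, hE1, hE2⟩ := Pool.Agent.V11326.WW.nat_windows (ι := ℕ)
      (fun i => {m : ℕ | ¬ Good b k ε κ (3 * C) (y i + m * x) m})
      (s := 1 - min c (1 / 2)) (by linarith [min_le_right c (1 / 2)])
      (fun i => ⟨_, Pool.Agent.V11326.WW.fam_count (C := 2 * C) hc0 (by linarith) 4
        (fun m : ℕ => Good b k ε κ (3 * C) (y i + m * x) m)
        (fun N m : ℕ => Good b k ε κ C (y i + m * x) (N + 1))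
        (by
          rintro N m hN hm1 hm2 ⟨hQ1, hQ2⟩
          refine ⟨hQ1, ?_⟩
          have hN1 : (4 : ℝ) ≤ N := hN
          have hmN : (m : ℝ) ≤ N := by exact_mod_cast hm2
          have h2 : (2 : ℝ) ≤ (N : ℝ) ^ (1 / 2 : ℝ) := by
            have h4 : (2 : ℝ) = √4 := by
              rw [show (4 : ℝ) = 2 ^ 2 by norm_num, Real.sqrt_sq (by norm_num)]
            calc (2 : ℝ) = √4 := h4
              _ ≤ √(N : ℝ) := Real.sqrt_le_sqrt hN1
              _ = (N : ℝ) ^ (1 / 2 : ℝ) := Real.sqrt_eq_rpow _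
          have hm3 : (2 : ℝ) ≤ m := h2.trans hm1
          have hlm : 0 < Real.log m := Real.log_pos (by linarith)
          have hlN1 : Real.log m ≤ Real.log ((N + 1 : ℕ) : ℝ) := by
            apply Real.log_le_log (by linarith)
            push_cast
            linarith
          have hlN2 : Real.log ((N + 1 : ℕ) : ℝ) ≤ 3 * Real.log m := by
            have h6 : (N : ℝ) ≤ (m : ℝ) ^ 2 := by
              calc (N : ℝ) = ((N : ℝ) ^ (1 / 2 : ℝ)) ^ 2 := by
                    rw [← Real.rpow_natCast, ← Real.rpow_mul (by linarith)]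
                    norm_num
                _ ≤ (m : ℝ) ^ 2 := pow_le_pow_left₀ (by positivity) hm1 2
            have h7 : ((N + 1 : ℕ) : ℝ) ≤ (m : ℝ) ^ 3 := by
              push_cast
              nlinarith [mul_le_mul_of_nonneg_right hm3 (show (0 : ℝ) ≤ (m : ℝ) ^ 2 by positivity)]
            calc Real.log ((N + 1 : ℕ) : ℝ) ≤ Real.log ((m : ℝ) ^ 3) :=
                  Real.log_le_log (by positivity) h7
              _ = 3 * Real.log m := by rw [Real.log_pow]; norm_num
          have hev : ∀ᶠ n : ℕ in atTop, 3 * C * Real.log m ≤ n := by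
            filter_upwards [eventually_ge_atTop ⌈3 * C * Real.log m⌉₊] with n hn
            exact Nat.ceil_le.1 hn
          refine (hQ2.and_eventually hev).mono ?_
          rintro n ⟨h1, h2⟩ w
          refine le_trans ?_ (h1 w)
          have hd1 : 0 < 3 * C * Real.log m := by positivity
          have hd2 : 0 < C * Real.log ((N + 1 : ℕ) : ℝ) := mul_pos hC (hlm.trans_le hlN1)
          have hq1 : 1 ≤ (n : ℝ) / (3 * C * Real.log m) := by rwa [one_le_div hd1]
          have hq2 : (n : ℝ) / (3 * C * Real.log m) ≤ n / (C * Real.log ((N + 1 : ℕ) : ℝ)) := by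
            apply div_le_div_of_nonneg_left (Nat.cast_nonneg _) hd2
            nlinarith
          have hl1 : 0 ≤ Real.log ((n : ℝ) / (3 * C * Real.log m)) / Real.log (1 + κ) :=
            div_nonneg (Real.log_nonneg hq1) hlκ.le
          have hl2 : Real.log ((n : ℝ) / (3 * C * Real.log m)) / Real.log (1 + κ) ≤
              Real.log (n / (C * Real.log ((N + 1 : ℕ) : ℝ))) / Real.log (1 + κ) :=
            div_le_div_of_nonneg_right (Real.log_le_log (by linarith) hq2) hlκ.le
          have hε2 : 0 < 1 - ε := by linarith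
          have hA : (1 - ε) * (Real.log m / ((b : ℝ) ^ k * Real.log b)) ≤
              (1 - ε) * (Real.log ((N + 1 : ℕ) : ℝ) / ((b : ℝ) ^ k * Real.log b)) :=
            mul_le_mul_of_nonneg_left (div_le_div_of_nonneg_right hlN1 (by positivity)) hε2.le
          exact mul_le_mul hA hl2 hl1 (mul_nonneg hε2.le
            (div_nonneg (hlm.trans_le hlN1).le (by positivity))))
        (fun N hN => by
          have h1 := h (y i) (N + 1) (by omega)
          have hfin : {m : ℕ | m < N + 1 ∧ ¬ Good b k ε κ C (y i + m * x) (N + 1)}.Finite :=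
            (Set.finite_lt_nat (N + 1)).subset fun m hm => hm.1
          refine ⟨hfin.toFinset, ?_, fun m hm hmE => ?_⟩
          · rw [← Set.ncard_eq_toFinset_card _ hfin]
            refine h1.trans ?_
            have hN1 : (1 : ℝ) ≤ N := by exact_mod_cast hN
            have h2 : ((N + 1 : ℕ) : ℝ) ^ (1 - c) ≤ 2 * (N : ℝ) ^ (1 - c) := by
              have h3 : 0 ≤ 1 - c := by linarith
              calc ((N + 1 : ℕ) : ℝ) ^ (1 - c) ≤ (2 * (N : ℝ)) ^ (1 - c) := by
                    apply Real.rpow_le_rpow (by positivity) _ h3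
                    push_cast
                    linarith
                _ = 2 ^ (1 - c) * (N : ℝ) ^ (1 - c) := Real.mul_rpow (by norm_num) (by linarith)
                _ ≤ 2 * (N : ℝ) ^ (1 - c) := by
                    apply mul_le_mul_of_nonneg_right _ (by positivity)
                    calc (2 : ℝ) ^ (1 - c) ≤ 2 ^ (1 : ℝ) :=
                          Real.rpow_le_rpow_of_exponent_le (by norm_num) (by linarith)
                      _ = 2 := Real.rpow_one 2
            calc C * ((N + 1 : ℕ) : ℝ) ^ (1 - c) ≤ C * (2 * (N : ℝ) ^ (1 - c)) :=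
                  mul_le_mul_of_nonneg_left h2 hC.le
              _ = 2 * C * (N : ℝ) ^ (1 - c) := by ring
          · rw [Set.Finite.mem_toFinset] at hmE
            by_contra hcon
            exact hmE ⟨Nat.lt_succ_of_le hm, hcon⟩)⟩)
      hv hτ hE hθ1
    rw [min_eq_left hc2] at hE1
    refine ⟨E, hE1, fun α hα hαE i => ?_⟩
    obtain ⟨m₀, hm⟩ := hE2 α hα hαE i
    exact ⟨m₀, fun n hn m hw => not_not.1 (hm n hn m hw)⟩

/-- small denominators -/
theorem small_den (x : ℝ) (hx : Irrational x) (n : ℕ) :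
    ∃ c : ℝ, 0 < c ∧ ∀ q : ℕ, 1 ≤ q → q < n → ∀ p : ℤ, c ≤ |q * x - p| := by
  induction n with
  | zero => exact ⟨1, one_pos, fun q _ h => absurd h (Nat.not_lt_zero q)⟩
  | succ n ih =>
    obtain ⟨c, hc, h⟩ := ih
    rcases Nat.eq_zero_or_pos n with hn | hn
    · exact ⟨1, one_pos, fun q h1 h2 => by omega⟩
    · have hirr : Irrational ((n : ℝ) * x) := hx.natCast_mul (by omega)
      have hpos : 0 < |(n : ℝ) * x - round ((n : ℝ) * x)| := by
        rw [abs_pos, sub_ne_zero]
        exact hirr.ne_int _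
      refine ⟨min c |(n : ℝ) * x - round ((n : ℝ) * x)|, lt_min hc hpos, fun q h1 h2 p => ?_⟩
      rcases Nat.lt_succ_iff_lt_or_eq.1 h2 with h3 | h3
      · exact (min_le_left _ _).trans (h q h1 h3 p)
      · rw [h3]
        exact (min_le_right _ _).trans (round_le _ _)

theorem pi_bad : ∃ c : ℝ, 0 < c ∧ ∀ q : ℕ, 1 ≤ q → ∀ p : ℤ,
    c ≤ (q : ℝ) ^ (5.05 : ℝ) * |q * Real.pi - p| := by
  obtain ⟨q0, hq0⟩ := Pool.Agent.H326R2.Pi.main
  obtain ⟨c, hc, hsm⟩ := small_den Real.pi irrational_pi q0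
  refine ⟨min c 1, lt_min hc one_pos, fun q hq p => ?_⟩
  have hqR : (1 : ℝ) ≤ q := by exact_mod_cast hq
  have hq0R : (0 : ℝ) < q := by linarith
  rcases lt_or_ge q q0 with h | h
  · have h1 : 1 ≤ (q : ℝ) ^ (5.05 : ℝ) := Real.one_le_rpow hqR (by norm_num)
    have h2 := hsm q hq h p
    calc min c 1 ≤ c := min_le_left _ _
      _ ≤ |q * Real.pi - p| := h2
      _ ≤ (q : ℝ) ^ (5.05 : ℝ) * |q * Real.pi - p| := le_mul_of_one_le_left (abs_nonneg _) h1
  · have h1 := hq0 q h p
    have e1 : |Real.pi - p / q| = |q * Real.pi - p| / q := by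
      rw [← abs_of_pos hq0R, ← abs_div, abs_of_pos hq0R]
      congr 1
      field_simp
    rw [e1, le_div_iff₀ hq0R] at h1
    have e2 : (q : ℝ) ^ (-(6.05 : ℝ)) * q = (q : ℝ) ^ (-(5.05 : ℝ)) := by
      nth_rewrite 2 [← Real.rpow_one (q : ℝ)]
      rw [← Real.rpow_add hq0R]
      norm_num
    rw [e2, Real.rpow_neg hq0R.le] at h1
    have h3 : (1 : ℝ) ≤ (q : ℝ) ^ (5.05 : ℝ) * |q * Real.pi - p| := by
      have h4 : 0 < (q : ℝ) ^ (5.05 : ℝ) := Real.rpow_pos_of_pos hq0R _
      rw [inv_le_iff_one_le_mul₀ h4] at h1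
      linarith
    exact (min_le_right _ _).trans h3

/-- **Words in the expansions of almost all the multiples of `π`.**  (1) and (2) hold for the
multiples of `π` with `κ = 5.05` (`1 + κ = 6.05`), and for the multiples of every irrational number `x`
with `|q x - p| ≥ c₀ q ^ (-κ)`, `κ ≥ 1`. -/
theorem result : MultiplesGood Real.pi 5.05 ∧
    ∀ x κ c₀ : ℝ, Irrational x → 1 ≤ κ → 0 < c₀ →
      (∀ q : ℕ, 1 ≤ q → ∀ p : ℤ, c₀ ≤ (q : ℝ) ^ κ * |q * x - p|) → MultiplesGood x κ := by
  obtain ⟨c, hc, hpi⟩ := pi_bad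
  exact ⟨multiples irrational_pi (by norm_num) hc hpi,
    fun x κ c₀ hx hκ hc₀ h => multiples hx hκ hc₀ h⟩

end Pool.Agent.Results.MP_57632f_nt.AlmostAllMultiples
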