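import Pool.Agent.V11226.SM.Fin
import Pool.Agent.V11226.SM.Fin2
import Pool.Agent.H326R2.Pi.Top

set_option autoImplicit false

/-!
# Multiples `m π` with `m` from a set defined by restricting the digits

Fix a base `a ≥ 2`.  For digit sets `D 0, D 1, … ⊆ {0, …, a - 1}` with at least two elements each let
`digs a D N` be the set of the `m < a ^ N` whose digit number `i` in base `a` belongs to `D i` for all
`i < N`.  (For instance, for `D i = {0, 1}` the numbers `m π`, `m ∈ digs a D N`, are the `2 ^ N` sums of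
different shifts `a ^ i π`, `i < N`.)  We prove, with a power saving, that almost all the numbers
`y + m π`, `m ∈ digs a D N`, have the right frequencies of digits in base `a` along every set
`J ⊆ {0, …, N - 1}` of positions to the left of the point, and the right frequencies of digits in every
base `b` along every set `J ⊆ {1, …, P}` of positions to the right of the point if `P / N` is small
and `|J|` is large, uniformly in the digit sets, in `J` and in the real number `y`.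
-/

namespace Pool.Agent.Results.MP_57632f_nt.DigitRestrictedMultiples

open Finset Pool.Agent.V11226.SM

/-- The number of the positions `j ∈ J` at which the word of `k` digits of `z` in base `b` (the
digits at the positions `j + k - 1, …, j`, that is, the coefficients of
`b ^ (j + k - 1), …, b ^ j`), read as a number, is `w`. -/
noncomputable def occ (b k : ℕ) (J : Finset ℕ) (z : ℝ) (w : ℕ) : ℕ :=
  (J.filter (fun j => ⌊z / (b : ℝ) ^ j⌋ % ((b ^ k : ℕ) : ℤ) = (w : ℤ))).card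

/-- The number of the `j ∈ J` for which the word of `k` digits of `z` in base `b` at the places
`j + 1, …, j + k` after the point, read as a number, is `w`. -/
noncomputable def occAfter (b k : ℕ) (J : Finset ℕ) (z : ℝ) (w : ℕ) : ℕ :=
  (J.filter (fun j => ⌊(b : ℝ) ^ (j + k) * z⌋ % ((b ^ k : ℕ) : ℤ) = (w : ℤ))).card

open Classical in
/-- For every word length `k ≥ 1` there is `C` such that, whenever `0 < ε ≤ 1`, `D 0, D 1, …` are sets
of at least two digits in base `a`, `J ⊆ {0, …, N - 1}` is nonempty and `y` is real: for all but at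
most `C ε ^ (-11) |J| ^ (-δ) |digs a D N|` of the numbers `m ∈ digs a D N`, the frequency in `J` of
every word of `k` digits in the expansion of `y + m x` in base `a` to the left of the point differs
from `a ^ (-k)` by at most `ε`. -/
def LeftOfPoint (x : ℝ) (a : ℕ) (δ : ℝ) : Prop :=
  ∀ k : ℕ, 1 ≤ k → ∃ C : ℝ, 0 < C ∧ ∀ ε : ℝ, 0 < ε → ε ≤ 1 → ∀ N : ℕ, ∀ D : ℕ → Finset ℕ,
    (∀ i, D i ⊆ range a ∧ 2 ≤ (D i).card) → ∀ J : Finset ℕ, J.Nonempty → (∀ j ∈ J, j < N) →
    ∀ y : ℝ,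
    (((digs a D N).filter (fun m : ℕ => ∃ w < a ^ k,
      ε < |(occ a k J (y + (m : ℝ) * x) w : ℝ) / J.card - 1 / (a : ℝ) ^ k|)).card : ℝ) ≤
      C / ε ^ 11 * (J.card : ℝ) ^ (-δ) * ((digs a D N).card : ℝ)

open Classical in
/-- For every word length `k ≥ 1` there is `C` such that, whenever `0 < ε ≤ 1`, `N ≥ 1`, `D 0, D 1, …`
are sets of at least two digits in base `a`, `J ⊆ {0, …, P - 1}` is nonempty and `y` is real: for all
but at most `C ε ^ (-11) (1 / |J| + (P / N) ^ δ) |digs a D N|` of the numbers `m ∈ digs a D N`, the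
frequency in `J` of every word of `k` digits in the expansion of `y + m x` in base `b` after the
point differs from `b ^ (-k)` by at most `ε`. -/
def AfterPoint (x : ℝ) (a b : ℕ) (δ : ℝ) : Prop :=
  ∀ k : ℕ, 1 ≤ k → ∃ C : ℝ, 0 < C ∧ ∀ ε : ℝ, 0 < ε → ε ≤ 1 → ∀ N : ℕ, 1 ≤ N →
    ∀ D : ℕ → Finset ℕ, (∀ i, D i ⊆ range a ∧ 2 ≤ (D i).card) →
    ∀ P : ℕ, ∀ J : Finset ℕ, J.Nonempty → (∀ j ∈ J, j < P) → ∀ y : ℝ,
    (((digs a D N).filter (fun m : ℕ => ∃ w < b ^ k,
      ε < |(occAfter b k J (y + (m : ℝ) * x) w : ℝ) / J.card - 1 / (b : ℝ) ^ k|)).card : ℝ) ≤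
      C / ε ^ 11 * (1 / (J.card : ℝ) + ((P : ℝ) / N) ^ δ) * ((digs a D N).card : ℝ)

/-- `|q x - p| ≥ c / q ^ K` for all integers `q ≥ 1` and `p` -/
def NotTooClose (x c : ℝ) (K : ℕ) : Prop :=
  ∀ q : ℕ, 1 ≤ q → ∀ p : ℤ, c / (q : ℝ) ^ K ≤ |q * x - p|

/-- small denominators -/
theorem small_den (x : ℝ) (hx : Irrational x) (n : ℕ) :
    ∃ c : ℝ, 0 < c ∧ ∀ q : ℕ, 1 ≤ q → q < n → ∀ p : ℤ, c ≤ |q * x - p| := by
  induction n with
  | zero => exact ⟨1, one_pos, fun q _ h => absurd h (Nat.not_lt_zero q)⟩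
  | succ n ih =>
    obtain ⟨c, hc, h⟩ := ih
    rcases Nat.eq_zero_or_pos n with hn | hn
    · exact ⟨1, one_pos, fun q h1 h2 => by omega⟩
    · have hirr : Irrational ((n : ℝ) * x) := hx.natCast_mul (by omega)
      have hpos : 0 < |(n : ℝ) * x - round ((n : ℝ) * x)| := by
        rw [abs_pos, sub_ne_zero]
        exact hirr.ne_int _
      refine ⟨min c |(n : ℝ) * x - round ((n : ℝ) * x)|, lt_min hc hpos, fun q h1 h2 p => ?_⟩
      rcases Nat.lt_succ_iff_lt_or_eq.1 h2 with h3 | h3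
      · exact (min_le_left _ _).trans (h q h1 h3 p)
      · rw [h3]
        exact (min_le_right _ _).trans (round_le _ _)

theorem pi_notTooClose : ∃ c : ℝ, 0 < c ∧ NotTooClose Real.pi c 6 := by
  obtain ⟨q0, hq0⟩ := Pool.Agent.H326R2.Pi.main
  obtain ⟨c, hc, hsm⟩ := small_den Real.pi irrational_pi q0
  refine ⟨min c 1, lt_min hc one_pos, fun q hq p => ?_⟩
  have hqR : (1 : ℝ) ≤ q := by exact_mod_cast hq
  have hq0R : (0 : ℝ) < q := by linarith
  have hm : 0 < min c 1 := lt_min hc one_pos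
  rcases lt_or_ge q q0 with h | h
  · have h2 := hsm q hq h p
    have h3 : min c 1 / (q : ℝ) ^ 6 ≤ min c 1 := div_le_self hm.le (one_le_pow₀ hqR)
    have h4 := min_le_left c 1
    linarith
  · have h1 := hq0 q h p
    have e1 : |Real.pi - p / q| = |q * Real.pi - p| / q := by
      rw [← abs_of_pos hq0R, ← abs_div, abs_of_pos hq0R]
      congr 1
      field_simp
    rw [e1, le_div_iff₀ hq0R] at h1
    have e2 : (q : ℝ) ^ (-(6.05 : ℝ)) * q = (q : ℝ) ^ (-(5.05 : ℝ)) := by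
      nth_rewrite 2 [← Real.rpow_one (q : ℝ)]
      rw [← Real.rpow_add hq0R]
      norm_num
    rw [e2] at h1
    have e3 : (q : ℝ) ^ (-(6 : ℝ)) ≤ (q : ℝ) ^ (-(5.05 : ℝ)) :=
      Real.rpow_le_rpow_of_exponent_le hqR (by norm_num)
    have e4 : (q : ℝ) ^ (-(6 : ℝ)) = 1 / (q : ℝ) ^ 6 := by
      rw [Real.rpow_neg hq0R.le, one_div]
      congr 1
      exact_mod_cast Real.rpow_natCast (q : ℝ) 6
    have h3 : min c 1 / (q : ℝ) ^ 6 ≤ 1 / (q : ℝ) ^ 6 :=
      div_le_div_of_nonneg_right (min_le_right _ _) (by positivity)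
    linarith

/-- the form needed below -/
theorem input (x c : ℝ) (K : ℕ) (hx : NotTooClose x c K) (H : Fin 1 → ℤ) (hH : H ≠ 0) (p : ℤ) :
    c / (∑ i, |(H i : ℝ)|) ^ K ≤ |∑ i, (H i : ℝ) * x - p| := by
  have hH0 : H 0 ≠ 0 := by
    intro h0
    apply hH
    funext i
    rw [Fin.fin_one_eq_zero i, h0]
    rfl
  simp only [univ_unique, Fin.default_eq_zero, Fin.isValue, sum_singleton]
  have h3 : (((H 0).natAbs : ℕ) : ℝ) = |(H 0 : ℝ)| := by
    rw [← Int.cast_abs, Int.abs_eq_natAbs]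
    simp
  rcases lt_or_gt_of_ne hH0 with h1 | h1
  · have h2 := hx (H 0).natAbs (by omega) (-p)
    rw [h3] at h2
    have h4 : |(H 0 : ℝ)| = -(H 0 : ℝ) := abs_of_neg (by exact_mod_cast h1)
    refine h2.trans (le_of_eq ?_)
    rw [h4]
    have h5 : -(H 0 : ℝ) * x - ((-p : ℤ) : ℝ) = -((H 0 : ℝ) * x - p) := by push_cast; ring
    rw [h5, abs_neg]
  · have h2 := hx (H 0).natAbs (by omega) p
    rw [h3] at h2
    have h4 : |(H 0 : ℝ)| = (H 0 : ℝ) := abs_of_pos (by exact_mod_cast h1)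
    refine h2.trans (le_of_eq ?_)
    rw [h4]

theorem left (a : ℕ) (ha : 2 ≤ a) (K : ℕ) (x c : ℝ) (hc : 0 < c) (hx : NotTooClose x c K) :
    LeftOfPoint x a (kap a K) := by
  classical
  intro k hk
  obtain ⟨C, hC, h⟩ := gen a ha 1 (fun _ => x) c hc K (input x c K hx) k hk
  refine ⟨C, hC, ?_⟩
  intro ε hε0 hε1 N D hD J hJne hJ y
  have h1 := h ε hε0 hε1 N D hD (fun _ => y) J hJne hJ
  refine le_trans ?_ h1
  have h2 : (digs a D N).filter (fun m : ℕ => ∃ w < a ^ k,
        ε < |(occ a k J (y + (m : ℝ) * x) w : ℝ) / J.card - 1 / (a : ℝ) ^ k|) ⊆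
      (digs a D N).filter (fun m : ℕ => ∃ w : Fin 1 → ℕ, (∀ i, w i < a ^ k) ∧
        ε < |(cnt a k J (fun _ : Fin 1 => y + (m : ℝ) * x) w : ℝ) / J.card -
          1 / ((a : ℝ) ^ k) ^ 1|) := by
    intro m hm
    rw [mem_filter] at hm ⊢
    obtain ⟨hm1, w, hw, hlt⟩ := hm
    refine ⟨hm1, fun _ => w, fun _ => hw, ?_⟩
    have h3 : cnt a k J (fun _ : Fin 1 => y + (m : ℝ) * x) (fun _ => w) =
        occ a k J (y + (m : ℝ) * x) w := by
      unfold cnt occ
      congr 1
      refine filter_congr fun j _ => ?_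
      simp
    rw [h3, pow_one]
    exact hlt
  have h4 := card_le_card h2
  convert (Nat.cast_le (α := ℝ)).2 h4

theorem after (a b : ℕ) (ha : 2 ≤ a) (hb : 2 ≤ b) (K : ℕ) (x c : ℝ) (hc : 0 < c)
    (hx : NotTooClose x c K) : AfterPoint x a b (2 * kap a K) := by
  classical
  intro k hk
  obtain ⟨C, hC, h⟩ := genA a b ha hb 1 (fun _ => x) c hc K (input x c K hx) k hk
  refine ⟨C, hC, ?_⟩
  intro ε hε0 hε1 N hN D hD P J hJne hJ y
  have h1 := h ε hε0 hε1 N hN D hD (fun _ => y) P J hJne hJ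
  refine le_trans ?_ h1
  have h2 : (digs a D N).filter (fun m : ℕ => ∃ w < b ^ k,
        ε < |(occAfter b k J (y + (m : ℝ) * x) w : ℝ) / J.card - 1 / (b : ℝ) ^ k|) ⊆
      (digs a D N).filter (fun m : ℕ => ∃ w : Fin 1 → ℕ, (∀ i, w i < b ^ k) ∧
        ε < |(cntA b k J (fun _ : Fin 1 => y + (m : ℝ) * x) w : ℝ) / J.card -
          1 / ((b : ℝ) ^ k) ^ 1|) := by
    intro m hm
    rw [mem_filter] at hm ⊢
    obtain ⟨hm1, w, hw, hlt⟩ := hm
    refine ⟨hm1, fun _ => w, fun _ => hw, ?_⟩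
    have h3 : cntA b k J (fun _ : Fin 1 => y + (m : ℝ) * x) (fun _ => w) =
        occAfter b k J (y + (m : ℝ) * x) w := by
      unfold cntA occAfter
      congr 1
      refine filter_congr fun j _ => ?_
      simp
    rw [h3, pow_one]
    exact hlt
  have h4 := card_le_card h2
  convert (Nat.cast_le (α := ℝ)).2 h4

/-- **Multiples of `π` by numbers with restricted digits.**  For every base `a ≥ 2` there is
`δ > 0` such that the digits in base `a` of `y + m π` to the left of the point satisfy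
`LeftOfPoint`, and there is `δ > 0` such that for every base `b ≥ 2` the digits in base `b` of
`y + m π` after the point satisfy `AfterPoint`.  The same holds for every real number `x` with
`|q x - p| ≥ c / q ^ K` in the place of `π`, where `δ` depends only on `a` and `K`. -/
theorem result :
    (∀ a : ℕ, 2 ≤ a → ∃ δ : ℝ, 0 < δ ∧ LeftOfPoint Real.pi a δ) ∧
    (∀ a : ℕ, 2 ≤ a → ∃ δ : ℝ, 0 < δ ∧ ∀ b : ℕ, 2 ≤ b → AfterPoint Real.pi a b δ) ∧
    (∀ a K : ℕ, 2 ≤ a → ∃ δ : ℝ, 0 < δ ∧ ∀ x c : ℝ, 0 < c → NotTooClose x c K →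
      LeftOfPoint x a δ) ∧
    (∀ a K : ℕ, 2 ≤ a → ∃ δ : ℝ, 0 < δ ∧ ∀ x c : ℝ, 0 < c → NotTooClose x c K →
      ∀ b : ℕ, 2 ≤ b → AfterPoint x a b δ) := by
  obtain ⟨c, hc, hpi⟩ := pi_notTooClose
  refine ⟨fun a ha => ⟨kap a 6, kap_pos a ha 6, left a ha 6 Real.pi c hc hpi⟩,
    fun a ha => ⟨2 * kap a 6, mul_pos two_pos (kap_pos a ha 6),
      fun b hb => after a b ha hb 6 Real.pi c hc hpi⟩,
    fun a K ha => ⟨kap a K, kap_pos a ha K, fun x c hc hx => left a ha K x c hc hx⟩,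
    fun a K ha => ⟨2 * kap a K, mul_pos two_pos (kap_pos a ha K),
      fun x c hc hx b hb => after a b ha hb K x c hc hx⟩⟩

end Pool.Agent.Results.MP_57632f_nt.DigitRestrictedMultiples
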