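import Pool.Agent.V60.FSP
import Pool.Agent.H326R2.Pi.Top

/-!
# Finite-state machines cannot predict the digits of `π`

A machine with finitely many states reads the digits of `x` in base `b` one after the other and,
before it reads the next digit, it announces a guess, which depends on its state only.

If `x` is not a Liouville number, with `c q ^ (-κ) ≤ |q x - p|` for all `q ≥ 1`, then on the digits
number `A + 1, …, A + n` every machine with `S` states makes at least
`(log (A + n) - log (A + S)) / log (1 + κ) - C` wrong guesses, where `C` depends only on `κ, c`: it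
depends neither on the base, nor on the machine, nor on `A, n`.  For `π` one can take `κ = 5.05`.
In particular `N ^ θ` states do not help: a machine with at most `N ^ θ` states makes at least
`(1 - θ) log N / log 6.05 - C` wrong guesses on the first `N` digits of `π`.

The same holds for the feedback functions of shift registers (nonlinear recurrences of order `m`).
-/

set_option autoImplicit false

namespace Pool.Agent.Results.MP_57632f_nt.FiniteStatePrediction

open Finset Pool.Agent

/-- the `i`-th digit of `x` after the point in base `b` -/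
noncomputable def digit (b : ℕ) (x : ℝ) (i : ℕ) : ℤ := ⌊x * (b : ℝ) ^ i⌋ % (b : ℤ)

/-- A machine with the set of states `Q`: the transition function, the guess announced in each
state, and the initial state. -/
structure Machine (Q : Type) where
  next : Q → ℤ → Q
  guess : Q → ℤ
  start : Q

/-- The state of the machine after it has read the digits number `A + 1, …, A + i` of `x` in base
`b`. -/
noncomputable def Machine.state {Q : Type} (M : Machine Q) (b : ℕ) (x : ℝ) (A : ℕ) : ℕ → Q
  | 0 => M.start
  | i + 1 => M.next (M.state b x A i) (digit b x (A + i + 1))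

/-- The number of the wrong guesses for the digits number `A + 1, …, A + n` of `x` in base `b`:
the guess for the digit number `A + i + 1` is announced when the machine has read the digits number
`A + 1, …, A + i`. -/
noncomputable def Machine.errors {Q : Type} (M : Machine Q) (b : ℕ) (x : ℝ) (A n : ℕ) : ℕ :=
  ((range n).filter (fun i => M.guess (M.state b x A i) ≠ digit b x (A + i + 1))).card

/-- `x` is badly approximable with exponent `κ` and constant `c`. -/
def Bad (x κ c : ℝ) : Prop :=
  ∀ q : ℕ, 1 ≤ q → ∀ p : ℤ, c * (q : ℝ) ^ (-κ) ≤ |q * x - p|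

/-- The number of the failures of the recurrence `d_{i+m} = F (d_i, …, d_{i+m-1})`, `1 ≤ i`,
`i + m ≤ N`, for the digits of `x` in base `b`. -/
noncomputable def failures (b : ℕ) (x : ℝ) (m : ℕ) (F : (Fin m → ℤ) → ℤ) (N : ℕ) : ℕ :=
  ((Icc 1 (N - m)).filter (fun i => F (fun j => digit b x (i + j)) ≠ digit b x (i + m))).card

theorem state_eq {Q : Type} (M : Machine Q) (b : ℕ) (x : ℝ) (A i : ℕ) :
    M.state b x A i = V60.FSP.st M.next (V60.FSP.dg b x) M.start A i := by
  induction i with
  | zero => rfl
  | succ i ih =>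
    rw [V60.FSP.st_step, ← ih]
    rfl

theorem errors_eq {Q : Type} [Fintype Q] (M : Machine Q) (b : ℕ) (x : ℝ) (A n : ℕ) :
    M.errors b x A n = V60.FSP.err M.next M.guess (V60.FSP.dg b x) M.start A n := by
  unfold Machine.errors V60.FSP.err
  congr 1
  apply Finset.filter_congr
  intro i _
  rw [state_eq]
  rfl

theorem bound (κ c : ℝ) (hκ : 0 < κ) (hc : 0 < c) :
    ∃ C : ℝ, ∀ x : ℝ, Bad x κ c →
      ∀ b : ℕ, 2 ≤ b → ∀ (Q : Type) [Fintype Q] (M : Machine Q) (A n : ℕ), 0 < A + n →
      (Real.log (A + n) - Real.log (A + Fintype.card Q)) / Real.log (1 + κ) - C ≤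
        M.errors b x A n := by
  refine ⟨1 + Real.log (1 + (2 * (1 + κ) + max 0 (-Real.log c / Real.log 2)) / κ) /
    Real.log (1 + κ), fun x hx b hb Q _ M A n hn => ?_⟩
  rw [errors_eq]
  exact V60.FSP.main b hb x κ c hκ hc hx M.next M.guess M.start A n hn

/-- the shift register as a machine: the state consists of the last `m` digits -/
noncomputable def register (b : ℕ) (x : ℝ) (m : ℕ) (F : (Fin m → ℤ) → ℤ) (hb : 2 ≤ b) :
    Machine (Fin m → Fin b) where
  next w d := fun j => if h : (j : ℕ) + 1 < m then w ⟨j + 1, h⟩ else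
    ⟨(d % (b : ℤ)).toNat, by
      have h1 : 0 ≤ d % (b : ℤ) := Int.emod_nonneg _ (by omega)
      have h2 : d % (b : ℤ) < b := Int.emod_lt_of_pos _ (by omega)
      omega⟩
  guess w := F (fun j => ((w j : ℕ) : ℤ))
  start := fun j => ⟨(digit b x (j + 1)).toNat, by
      have h1 : 0 ≤ digit b x (j + 1) := Int.emod_nonneg _ (by omega)
      have h2 : digit b x (j + 1) < b := Int.emod_lt_of_pos _ (by omega)
      omega⟩

theorem register_state (b : ℕ) (x : ℝ) (m : ℕ) (F : (Fin m → ℤ) → ℤ) (hb : 2 ≤ b) (i : ℕ) :
    ∀ j : Fin m, ((((register b x m F hb).state b x m i j : Fin b) : ℕ) : ℤ) =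
      digit b x (i + 1 + j) := by
  induction i with
  | zero =>
    intro j
    have h1 : 0 ≤ digit b x (j + 1) := Int.emod_nonneg _ (by omega)
    show (((digit b x (j + 1)).toNat : ℕ) : ℤ) = _
    rw [Int.toNat_of_nonneg h1]
    congr 1
    omega
  | succ i ih =>
    intro j
    have h1 : 0 ≤ digit b x (m + i + 1) := Int.emod_nonneg _ (by omega)
    have h2 : digit b x (m + i + 1) < b := Int.emod_lt_of_pos _ (by omega)
    show (((if h : (j : ℕ) + 1 < m then (register b x m F hb).state b x m i ⟨j + 1, h⟩ else
      ⟨(digit b x (m + i + 1) % (b : ℤ)).toNat, _⟩ : Fin b) : ℕ) : ℤ) = _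
    by_cases h : (j : ℕ) + 1 < m
    · rw [dif_pos h, ih]
      congr 1
      show i + 1 + (j + 1) = _
      omega
    · rw [dif_neg h]
      show (((digit b x (m + i + 1) % (b : ℤ)).toNat : ℕ) : ℤ) = _
      rw [Int.emod_eq_of_lt h1 h2, Int.toNat_of_nonneg h1]
      congr 1
      have := j.isLt
      omega

theorem failures_eq (b : ℕ) (x : ℝ) (m : ℕ) (F : (Fin m → ℤ) → ℤ) (hb : 2 ≤ b) (N : ℕ) :
    (register b x m F hb).errors b x m (N - m) = failures b x m F N := by
  unfold Machine.errors failures
  refine Finset.card_bij (fun i _ => i + 1) ?_ ?_ ?_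
  · intro i hi
    rw [mem_filter, mem_range] at hi
    rw [mem_filter, mem_Icc]
    refine ⟨⟨by omega, by omega⟩, ?_⟩
    have h1 := hi.2
    have e1 : (register b x m F hb).guess ((register b x m F hb).state b x m i) =
        F (fun j => digit b x (i + 1 + j)) := by
      show F _ = _
      congr 1
      funext j
      exact register_state b x m F hb i j
    rw [e1, show m + i + 1 = i + 1 + m by ring] at h1
    exact h1
  · intro i _ j _ h
    omega
  · intro i hi
    rw [mem_filter, mem_Icc] at hi
    obtain ⟨k, rfl⟩ : ∃ k, i = k + 1 := ⟨i - 1, by omega⟩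
    refine ⟨k, ?_, rfl⟩
    rw [mem_filter, mem_range]
    refine ⟨by omega, ?_⟩
    have h1 := hi.2
    have e1 : (register b x m F hb).guess ((register b x m F hb).state b x m k) =
        F (fun j => digit b x (k + 1 + j)) := by
      show F _ = _
      congr 1
      funext j
      exact register_state b x m F hb k j
    rw [e1, show m + k + 1 = k + 1 + m by ring]
    exact h1

/-- small denominators -/
theorem small_den (x : ℝ) (hx : Irrational x) (n : ℕ) :
    ∃ c : ℝ, 0 < c ∧ ∀ q : ℕ, 1 ≤ q → q < n → ∀ p : ℤ, c ≤ |q * x - p| := by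
  induction n with
  | zero => exact ⟨1, one_pos, fun q _ h => absurd h (Nat.not_lt_zero q)⟩
  | succ n ih =>
    obtain ⟨c, hc, h⟩ := ih
    rcases Nat.eq_zero_or_pos n with hn | hn
    · exact ⟨1, one_pos, fun q h1 h2 => by omega⟩
    · have hirr : Irrational ((n : ℝ) * x) := hx.natCast_mul (by omega)
      have hpos : 0 < |(n : ℝ) * x - round ((n : ℝ) * x)| := by
        rw [abs_pos, sub_ne_zero]
        exact hirr.ne_int _
      refine ⟨min c |(n : ℝ) * x - round ((n : ℝ) * x)|, lt_min hc hpos, fun q h1 h2 p => ?_⟩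
      rcases Nat.lt_succ_iff_lt_or_eq.1 h2 with h3 | h3
      · exact (min_le_left _ _).trans (h q h1 h3 p)
      · rw [h3]
        exact (min_le_right _ _).trans (round_le _ _)

theorem pi_bad : ∃ c : ℝ, 0 < c ∧ Bad Real.pi 5.05 c := by
  obtain ⟨q0, hq0⟩ := Pool.Agent.H326R2.Pi.main
  obtain ⟨c, hc, hsm⟩ := small_den Real.pi irrational_pi q0
  refine ⟨min c 1, lt_min hc one_pos, fun q hq p => ?_⟩
  have hqR : (1 : ℝ) ≤ q := by exact_mod_cast hq
  have hq0R : (0 : ℝ) < q := by linarith
  rcases lt_or_ge q q0 with h | h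
  · have h1 : (q : ℝ) ^ (-(5.05 : ℝ)) ≤ 1 := Real.rpow_le_one_of_one_le_of_nonpos hqR (by norm_num)
    have h2 := hsm q hq h p
    have h3 : min c 1 * (q : ℝ) ^ (-(5.05 : ℝ)) ≤ min c 1 * 1 :=
      mul_le_mul_of_nonneg_left h1 (lt_min hc one_pos).le
    have h4 := min_le_left c 1
    linarith
  · have h1 := hq0 q h p
    have e1 : |Real.pi - p / q| = |q * Real.pi - p| / q := by
      rw [← abs_of_pos hq0R, ← abs_div, abs_of_pos hq0R]
      congr 1
      field_simp
    rw [e1, le_div_iff₀ hq0R] at h1
    have e2 : (q : ℝ) ^ (-(6.05 : ℝ)) * q = (q : ℝ) ^ (-(5.05 : ℝ)) := by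
      rw [show (-(5.05 : ℝ)) = -(6.05 : ℝ) + 1 by norm_num, Real.rpow_add hq0R, Real.rpow_one]
    rw [e2] at h1
    have h2 : 0 ≤ (q : ℝ) ^ (-(5.05 : ℝ)) := by positivity
    have h4 := min_le_right c 1
    nlinarith

/-- **Finite-state machines cannot predict the digits of `π`.**  There is an absolute constant `C`
with the following properties.
(1) In every base `b ≥ 2`, every machine with `S` states (a finite automaton which reads the digits
one after the other and announces, before each digit, a guess depending on its state) makes at least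
`(log (A + n) - log (A + S)) / log 6.05 - C` wrong guesses on the digits number `A + 1, …, A + n`
of `π`.
(2) Consequently, if it has at most `N ^ θ` states, then it makes at least
`(1 - θ) log N / log 6.05 - C` wrong guesses on the first `N` digits.
(3) For every `m ≥ 0` and every function `F` of `m` variables the recurrence
`d_{i+m} = F (d_i, …, d_{i+m-1})` fails for at least `(log N - m log b) / log 6.05 - C` of the
indices `1 ≤ i ≤ N - m`, `N > m`.
(4) The bound (1) holds for every real number `x` and all `κ, c > 0` such that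
`c q ^ (-κ) ≤ |q x - p|` for all integers `q ≥ 1` and `p`, with `log (1 + κ)` in place of `log 6.05`
and a constant which depends on `κ` and `c` only. -/
theorem result :
    (∃ C : ℝ,
      (∀ b : ℕ, 2 ≤ b → ∀ (Q : Type) [Fintype Q] (M : Machine Q) (A n : ℕ), 0 < A + n →
        (Real.log (A + n) - Real.log (A + Fintype.card Q)) / Real.log 6.05 - C ≤
          M.errors b Real.pi A n) ∧
      (∀ b : ℕ, 2 ≤ b → ∀ (Q : Type) [Fintype Q] (M : Machine Q) (N : ℕ) (θ : ℝ), 0 < N →
        (Fintype.card Q : ℝ) ≤ (N : ℝ) ^ θ →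
        (1 - θ) * Real.log N / Real.log 6.05 - C ≤ M.errors b Real.pi 0 N) ∧
      (∀ b : ℕ, 2 ≤ b → ∀ (m : ℕ) (F : (Fin m → ℤ) → ℤ) (N : ℕ), m < N →
        (Real.log N - m * Real.log b) / Real.log 6.05 - C ≤ failures b Real.pi m F N)) ∧
    (∀ κ c : ℝ, 0 < κ → 0 < c → ∃ C : ℝ, ∀ x : ℝ, Bad x κ c →
      ∀ b : ℕ, 2 ≤ b → ∀ (Q : Type) [Fintype Q] (M : Machine Q) (A n : ℕ), 0 < A + n →
        (Real.log (A + n) - Real.log (A + Fintype.card Q)) / Real.log (1 + κ) - C ≤
          M.errors b x A n) := by
  refine ⟨?_, ?_⟩
  · obtain ⟨c, hc, hbad⟩ := pi_bad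
    obtain ⟨C, hC0⟩ := bound 5.05 c (by norm_num) hc
    have hC := hC0 Real.pi hbad
    have e6 : (1 + 5.05 : ℝ) = 6.05 := by norm_num
    rw [e6] at hC
    have hl6 : 0 < Real.log (6.05 : ℝ) := Real.log_pos (by norm_num)
    have hl2 : 0 < Real.log (2 : ℝ) := Real.log_pos (by norm_num)
    refine ⟨C + Real.log 2 / Real.log 6.05, ?_, ?_, ?_⟩
    · intro b hb Q _ M A n hn
      have := hC b hb Q M A n hn
      have h2 : 0 < Real.log 2 / Real.log 6.05 := by positivity
      linarith
    · intro b hb Q _ M N θ hN hS
      have h1 := hC b hb Q M 0 N (by omega)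
      have : Nonempty Q := ⟨M.start⟩
      have hS0 : (0 : ℝ) < Fintype.card Q := by exact_mod_cast Fintype.card_pos (α := Q)
      have hN0 : (0 : ℝ) < N := by exact_mod_cast hN
      have h3 := Real.log_le_log hS0 hS
      rw [Real.log_rpow hN0] at h3
      simp only [Nat.cast_zero, zero_add] at h1
      have h2 : 0 < Real.log 2 / Real.log 6.05 := by positivity
      have h4 : (1 - θ) * Real.log N / Real.log 6.05 ≤
          (Real.log N - Real.log (Fintype.card Q)) / Real.log 6.05 :=
        div_le_div_of_nonneg_right (by linarith) hl6.le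
      linarith
    · intro b hb m F N hm
      have h1 := hC b hb (Fin m → Fin b) (register b Real.pi m F hb) m (N - m) (by omega)
      rw [failures_eq] at h1
      have e1 : ((m : ℝ) + ((N - m : ℕ) : ℝ)) = N := by
        rw [Nat.cast_sub hm.le]; ring
      rw [e1] at h1
      have hcard : Fintype.card (Fin m → Fin b) = b ^ m := by
        rw [Fintype.card_fun, Fintype.card_fin, Fintype.card_fin]
      rw [hcard] at h1
      push_cast at h1
      have hb1 : (0 : ℝ) < b := by positivity
      have hmb : (m : ℝ) ≤ (b : ℝ) ^ m := by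
        have : m ≤ b ^ m := (Nat.lt_pow_self (by omega)).le
        exact_mod_cast this
      have hbm : (0 : ℝ) < (b : ℝ) ^ m := by positivity
      have h2 : Real.log (m + (b : ℝ) ^ m) ≤ Real.log 2 + m * Real.log b := by
        rw [← Real.log_pow, ← Real.log_mul (by norm_num) hbm.ne']
        exact Real.log_le_log (by positivity) (by linarith)
      have h4 : (Real.log N - m * Real.log b) / Real.log 6.05 - Real.log 2 / Real.log 6.05 ≤
          (Real.log N - Real.log (m + (b : ℝ) ^ m)) / Real.log 6.05 := by
        rw [← sub_div]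
        exact div_le_div_of_nonneg_right (by linarith) hl6.le
      linarith
  · intro κ c hκ hc
    exact bound κ c hκ hc

end Pool.Agent.Results.MP_57632f_nt.FiniteStatePrediction
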