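import Pool.Agent.V11191.HS
import Pool.Agent.W47.LC.EBound
import Pool.Agent.H326R2.Pi.Top

/-!
# Machines with several stacks which write the digits of `π`

If a deterministic machine with finitely many stacks writes the decimal digits of `π`, or the
(signed) digits of any other expansion of `π` with bounded integer digits in some base, then for
every stack `k₀`, which may be used freely and without any bound for the time, it has to remove
symbols from the OTHER stacks at least `c log N` times before `N` symbols are written.  The same is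
proved for `e` and for all irrational numbers which are not Liouville numbers.

The structure theory of the machines (`Pool.Agent.W979.HS`, starting library, not handed in): with
`E` accesses to the other stacks the word written satisfies `w_(i+P) = w_i` outside of `O(E + 1)`
places, for a fixed `P`.
-/

set_option autoImplicit false

namespace Pool.Agent.Results.MP_57632f_nt.StackMachinesPi

open Finset Filter Pool.Agent.W979.HS

/-- From the place `s` on the word written by the machine codes the terms `g 1, g 2, …`; the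
symbol `d` stands for the integer `φ d`.  (The first `s` symbols are arbitrary, and it is not
required that the machine writes infinitely many symbols.) -/
def Writes (M : StackMachine) (s : ℕ) (φ : ℕ → ℤ) (g : ℕ → ℤ) : Prop :=
  ∀ T i d, (M.output T)[s + i]? = some d → φ d = g (i + 1)

open Classical in
/-- the number of the first `T` steps in which a nonempty stack other than `k₀` is popped -/
noncomputable def outsidePops (M : StackMachine) (k₀ : M.ι) (T : ℕ) : ℕ :=
  ((range T).filter (M.PopOutside k₀)).card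

/-- Let `b ≥ 2` and `x = ∑ g_k b^(-k)` with bounded integers `g_k`.  If a machine writes
`g_1, g_2, …` and `k₀` is one of its stacks, then it pops the other stacks at least `c log N` times
before it has written `N` symbols, `N ≥ N0`; here `c > 0` and `N0` depend on the machine. -/
def LogBound (x : ℝ) : Prop :=
  ∀ b : ℕ, 2 ≤ b → ∀ (g : ℕ → ℤ) (G : ℤ), (∀ k, |g k| ≤ G) →
    HasSum (fun k : ℕ => (g k : ℝ) / (b : ℝ) ^ k) x →
    ∀ (M : StackMachine) (k₀ : M.ι) (s : ℕ) (φ : ℕ → ℤ), Writes M s φ g →
      ∃ c : ℝ, 0 < c ∧ ∃ N0 : ℕ, ∀ N T : ℕ, N0 ≤ N → N ≤ (M.output T).length →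
        c * Real.log N ≤ outsidePops M k₀ T

/-- a polynomial lower bound for `|q x - p|` excludes Liouville numbers -/
theorem not_liouville (x c : ℝ) (hc : 0 < c) (n : ℕ)
    (h : ∀ q : ℕ, 1 ≤ q → ∀ p : ℤ, c ≤ (q : ℝ) ^ n * |q * x - p|) : ¬ Liouville x := by
  intro hL
  obtain ⟨r, hr⟩ : ∃ r : ℕ, 1 / c < (2 : ℝ) ^ r := pow_unbounded_of_one_lt _ (by norm_num)
  obtain ⟨a, b, hb, -, hlt⟩ := hL (n + 1 + r)
  obtain ⟨q, rfl⟩ := Int.eq_ofNat_of_zero_le (by omega : 0 ≤ b)
  have hq2 : 2 ≤ q := by
    have : (1 : ℤ) < (q : ℤ) := hb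
    omega
  have hqR : (2 : ℝ) ≤ q := by exact_mod_cast hq2
  have hq0 : (0 : ℝ) < q := by linarith
  have h1 := h q (by omega) a
  have h2 : |(q : ℝ) * x - a| = q * |x - a / q| := by
    rw [← abs_of_pos hq0, ← abs_mul, abs_of_pos hq0]
    congr 1
    field_simp
  rw [h2] at h1
  simp only [Int.cast_natCast] at hlt
  rw [lt_div_iff₀ (by positivity)] at hlt
  have h3 : (2 : ℝ) ^ r ≤ (q : ℝ) ^ r := pow_le_pow_left₀ (by norm_num) hqR r
  have h4 : 1 < c * (q : ℝ) ^ r := by
    rw [div_lt_iff₀ hc] at hr
    nlinarith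
  have h5 : |x - a / q| * (q : ℝ) ^ (n + 1 + r) =
      ((q : ℝ) ^ n * (q * |x - a / q|)) * (q : ℝ) ^ r := by
    rw [pow_add, pow_add]; ring
  rw [h5] at hlt
  have h6 : c * (q : ℝ) ^ r ≤ ((q : ℝ) ^ n * (q * |x - a / q|)) * (q : ℝ) ^ r :=
    mul_le_mul_of_nonneg_right h1 (by positivity)
  linarith

/-- small denominators -/
theorem small_den (x : ℝ) (hx : Irrational x) (n : ℕ) :
    ∃ c : ℝ, 0 < c ∧ ∀ q : ℕ, 1 ≤ q → q < n → ∀ p : ℤ, c ≤ |q * x - p| := by
  induction n with
  | zero => exact ⟨1, one_pos, fun q _ h => absurd h (Nat.not_lt_zero q)⟩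
  | succ n ih =>
    obtain ⟨c, hc, h⟩ := ih
    rcases Nat.eq_zero_or_pos n with hn | hn
    · exact ⟨1, one_pos, fun q h1 h2 => by omega⟩
    · have hirr : Irrational ((n : ℝ) * x) := hx.natCast_mul (by omega)
      have hpos : 0 < |(n : ℝ) * x - round ((n : ℝ) * x)| := by
        rw [abs_pos, sub_ne_zero]
        exact hirr.ne_int _
      refine ⟨min c |(n : ℝ) * x - round ((n : ℝ) * x)|, lt_min hc hpos, fun q h1 h2 p => ?_⟩
      rcases Nat.lt_succ_iff_lt_or_eq.1 h2 with h3 | h3
      · exact (min_le_left _ _).trans (h q h1 h3 p)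
      · rw [h3]
        exact (min_le_right _ _).trans (round_le _ _)

theorem pi_not_liouville : ¬ Liouville Real.pi := by
  obtain ⟨q0, hq0⟩ := Pool.Agent.H326R2.Pi.main
  obtain ⟨c, hc, hsm⟩ := small_den Real.pi irrational_pi q0
  refine not_liouville Real.pi (min c 1) (lt_min hc one_pos) 6 (fun q hq p => ?_)
  have hqR : (1 : ℝ) ≤ q := by exact_mod_cast hq
  have hq0R : (0 : ℝ) < q := by linarith
  rcases lt_or_ge q q0 with h | h
  · refine (min_le_left _ _).trans ((hsm q hq h p).trans ?_)
    have h1 : (1 : ℝ) ≤ (q : ℝ) ^ 6 := one_le_pow₀ hqR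
    nlinarith [abs_nonneg ((q : ℝ) * Real.pi - p)]
  · refine (min_le_right _ _).trans ?_
    have h1 := hq0 q h p
    have e1 : |Real.pi - p / q| = |q * Real.pi - p| / q := by
      rw [← abs_of_pos hq0R, ← abs_div, abs_of_pos hq0R]
      congr 1
      field_simp
    rw [e1, le_div_iff₀ hq0R] at h1
    have h2 : (q : ℝ) ^ (-(7 : ℝ)) ≤ (q : ℝ) ^ (-(6.05 : ℝ)) :=
      Real.rpow_le_rpow_of_exponent_le hqR (by norm_num)
    have h3 : (q : ℝ) ^ (-(7 : ℝ)) * (q : ℝ) ^ 7 = 1 := by
      rw [← Real.rpow_natCast (q : ℝ) 7, ← Real.rpow_add hq0R]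
      norm_num
    calc (1 : ℝ) = ((q : ℝ) ^ (-(7 : ℝ)) * q) * (q : ℝ) ^ 6 := by
          rw [← h3]; ring
      _ ≤ ((q : ℝ) ^ (-(6.05 : ℝ)) * q) * (q : ℝ) ^ 6 := by
          apply mul_le_mul_of_nonneg_right _ (by positivity)
          exact mul_le_mul_of_nonneg_right h2 hq0R.le
      _ ≤ |q * Real.pi - p| * (q : ℝ) ^ 6 := by
          apply mul_le_mul_of_nonneg_right h1 (by positivity)
      _ = _ := by ring

theorem exp_not_liouville : ¬ Liouville (Real.exp 1) := by
  refine not_liouville (Real.exp 1) (1 / 1000) (by norm_num) 2 (fun q hq p => ?_)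
  have hqR : (1 : ℝ) ≤ q := by exact_mod_cast hq
  refine (Pool.Agent.W47.LC.eBound q hq p).trans ?_
  apply mul_le_mul_of_nonneg_right _ (abs_nonneg _)
  rw [pow_one, pow_two]
  apply mul_le_mul_of_nonneg_left _ (by linarith)
  have := Real.log_le_sub_one_of_pos (show (0 : ℝ) < q by linarith)
  linarith

theorem irrational_exp_one : Irrational (Real.exp 1) := by
  intro ⟨r, hr⟩
  have h1 := Pool.Agent.W47.LC.eBound r.den r.den_pos r.num
  have h2 : (r.den : ℝ) * Real.exp 1 - r.num = 0 := by
    rw [← hr]
    have := Rat.mul_den_eq_num r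
    have h3 : (r : ℝ) * r.den = r.num := by exact_mod_cast this
    linarith
  rw [h2, abs_zero, mul_zero] at h1
  norm_num at h1

/-- **Theorem.** Every machine with several stacks which writes the digits of `π` (in base 10 or any
other base, with the usual digits or with signed digits) pops, for each stack `k₀`, the stacks
other than `k₀` at least `c log N` times before `N` symbols are written.  The same holds for
`e`, and for each irrational number which is not a Liouville number. -/
theorem result :
    LogBound Real.pi ∧ LogBound (Real.exp 1) ∧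
      ∀ x : ℝ, Irrational x → ¬ Liouville x → LogBound x := by
  have key : ∀ x : ℝ, Irrational x → ¬ Liouville x → LogBound x :=
    fun x hx hL b hb g G hg hsum M k₀ s φ hw =>
      Pool.Agent.V11191.HS.machine_access' g φ (fun N : ℕ => Real.log N)
        (Real.tendsto_log_atTop.comp tendsto_natCast_atTop_atTop)
        (fun P hP => Pool.Agent.V11191.HS.fail_log b hb g G hg x hx hL hsum P hP) M k₀ s hw
  exact ⟨key _ irrational_pi pi_not_liouville, key _ irrational_exp_one exp_not_liouville, key⟩

end Pool.Agent.Results.MP_57632f_nt.StackMachinesPi
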